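import Pool.Agent.Helper15.FC.St2

set_option autoImplicit false

/-!
Project FC (MP_16cbc0_nt), module UPR: expansion of periodic functions on the units modulo `r`.
-/

namespace Pool.Agent.Helper98.FC

open Pool.Agent.Helper15.FC Polynomial

private theorem mem_Lc {F : Type} [Field F] [Fintype F] {r x : F[X]} :
    x ∈ Lc r ↔ x.degree < (r.natDegree : WithBot ℕ) ∧ IsCoprime x r := by
  classical
  unfold Lc
  rw [Finset.mem_filter, mem_Lw]

private theorem ex_rep {F : Type} [Field F] [Fintype F] {r f : F[X]} (hr : r.Monic)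
    (hf : IsCoprime f r) : ∃ x ∈ Lc r, r ∣ f - x := by
  by_cases h1 : r = 1
  · subst h1
    refine ⟨0, mem_Lc.2 ⟨by simp, isCoprime_one_right⟩, one_dvd _⟩
  · have hd : r ∣ f - f %ₘ r := by
      refine ⟨f /ₘ r, ?_⟩
      have := Polynomial.modByMonic_add_div f r
      linear_combination -this
    refine ⟨f %ₘ r, mem_Lc.2 ⟨?_, ?_⟩, hd⟩
    · have := Polynomial.degree_modByMonic_lt f hr
      rwa [Polynomial.degree_eq_natDegree hr.ne_zero] at this
    · obtain ⟨c, hc⟩ := hd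
      obtain ⟨a, b, hab⟩ := hf
      refine ⟨a, b + a * c, ?_⟩
      linear_combination hab - a * hc

private theorem uniq_rep {F : Type} [Field F] [Fintype F] {r x y : F[X]} (hr : r.Monic)
    (hx : x ∈ Lc r) (hy : y ∈ Lc r) (h : r ∣ x - y) : x = y := by
  have hx' := (mem_Lc.1 hx).1
  have hy' := (mem_Lc.1 hy).1
  have h1 : (x - y).degree < r.degree := by
    rw [Polynomial.degree_eq_natDegree hr.ne_zero]
    exact lt_of_le_of_lt (Polynomial.degree_sub_le _ _) (max_lt hx' hy')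
  exact sub_eq_zero.1 (Polynomial.eq_zero_of_dvd_of_degree_lt h h1)

private theorem phi_pos' {F : Type} [Field F] [Fintype F] {r : F[X]} (hr : r.Monic) :
    0 < phi r := by
  rw [← card_Lc]
  obtain ⟨x, hx, -⟩ := ex_rep hr (isCoprime_one_left : IsCoprime (1 : F[X]) r)
  exact Finset.card_pos.2 ⟨x, hx⟩

/-- **UPR** (expansion of functions on the units modulo `r`) -/
theorem hUPR (hORR : StORR) : StUPR := by
  classical
  intro F _ _ r w hr hw hper
  have hφ : (phi r : ℂ) ≠ 0 := Nat.cast_ne_zero.2 (phi_pos' hr).ne'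
  have hφR : (0 : ℝ) < (phi r : ℝ) := Nat.cast_pos.2 (phi_pos' hr)
  -- orthogonality for representatives
  have horth : ∀ f x : F[X], IsCoprime f r → x ∈ Lc r →
      ∑ χ ∈ allF (MulChar (AdjoinRoot r) ℂ), χ (AdjoinRoot.mk r f) *
        (starRingEnd ℂ) (χ (AdjoinRoot.mk r x)) = if r ∣ f - x then (phi r : ℂ) else 0 := by
    intro f x hf hx
    have h := hORR F r f x hr hf (mem_Lc.1 hx).2
    split_ifs with hd
    · exact h.2.1 hd
    · exact h.2.2 hd
  refine ⟨fun χ => (phi r : ℂ)⁻¹ * ∑ x ∈ Lc r, w x *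
    (starRingEnd ℂ) (χ (AdjoinRoot.mk r x)), ?_, ?_, ?_⟩
  · intro f hf
    obtain ⟨x0, hx0, hd0⟩ := ex_rep hr hf
    have h1 : ∑ χ ∈ allF (MulChar (AdjoinRoot r) ℂ),
        ((phi r : ℂ)⁻¹ * ∑ x ∈ Lc r, w x * (starRingEnd ℂ) (χ (AdjoinRoot.mk r x))) *
          χ (AdjoinRoot.mk r f) =
        (phi r : ℂ)⁻¹ * ∑ x ∈ Lc r, w x * (if r ∣ f - x then (phi r : ℂ) else 0) := by
      have h2 : ∀ x ∈ Lc r, w x * (if r ∣ f - x then (phi r : ℂ) else 0) =
          ∑ χ ∈ allF (MulChar (AdjoinRoot r) ℂ), w x * (χ (AdjoinRoot.mk r f) *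
            (starRingEnd ℂ) (χ (AdjoinRoot.mk r x))) := by
        intro x hx
        rw [← horth f x hf hx, Finset.mul_sum]
      rw [Finset.sum_congr rfl h2, Finset.sum_comm, Finset.mul_sum]
      refine Finset.sum_congr rfl fun χ _ => ?_
      rw [mul_assoc, Finset.sum_mul]
      congr 1
      refine Finset.sum_congr rfl fun x _ => ?_
      ring
    rw [h1, Finset.sum_eq_single x0]
    · rw [if_pos hd0, hper f x0 hd0]
      field_simp
    · intro y hy hne
      rw [if_neg, mul_zero]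
      intro hdy
      refine hne (uniq_rep hr hy hx0 ?_)
      have := dvd_sub hd0 hdy
      simpa using this
    · intro h
      exact absurd hx0 h
  · -- Parseval
    have h1 : ((∑ χ ∈ allF (MulChar (AdjoinRoot r) ℂ), ‖(phi r : ℂ)⁻¹ * ∑ x ∈ Lc r, w x *
        (starRingEnd ℂ) (χ (AdjoinRoot.mk r x))‖ ^ 2 : ℝ) : ℂ) =
        (phi r : ℂ)⁻¹ * ∑ x ∈ Lc r, w x * (starRingEnd ℂ) (w x) := by
      have h2 : ∀ χ : MulChar (AdjoinRoot r) ℂ, ((‖(phi r : ℂ)⁻¹ * ∑ x ∈ Lc r, w x *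
          (starRingEnd ℂ) (χ (AdjoinRoot.mk r x))‖ ^ 2 : ℝ) : ℂ) =
          (phi r : ℂ)⁻¹ * (phi r : ℂ)⁻¹ * ∑ x ∈ Lc r, ∑ y ∈ Lc r,
            w x * (starRingEnd ℂ) (w y) * (χ (AdjoinRoot.mk r y) *
              (starRingEnd ℂ) (χ (AdjoinRoot.mk r x))) := by
        intro χ
        rw [Complex.ofReal_pow, ← Complex.mul_conj']
        rw [map_mul, map_inv₀, Complex.conj_natCast, map_sum]
        rw [mul_mul_mul_comm, Finset.sum_mul_sum]
        congr 1
        refine Finset.sum_congr rfl fun x _ => Finset.sum_congr rfl fun y _ => ?_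
        rw [map_mul, Complex.conj_conj]
        ring
      rw [Complex.ofReal_sum, Finset.sum_congr rfl (fun χ _ => h2 χ), ← Finset.mul_sum,
        Finset.sum_comm]
      have h3 : ∀ x ∈ Lc r, ∑ χ ∈ allF (MulChar (AdjoinRoot r) ℂ), ∑ y ∈ Lc r,
          w x * (starRingEnd ℂ) (w y) * (χ (AdjoinRoot.mk r y) *
            (starRingEnd ℂ) (χ (AdjoinRoot.mk r x))) =
          w x * (starRingEnd ℂ) (w x) * (phi r : ℂ) := by
        intro x hx
        rw [Finset.sum_comm]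
        have h4 : ∀ y ∈ Lc r, ∑ χ ∈ allF (MulChar (AdjoinRoot r) ℂ),
            w x * (starRingEnd ℂ) (w y) * (χ (AdjoinRoot.mk r y) *
              (starRingEnd ℂ) (χ (AdjoinRoot.mk r x))) =
            w x * (starRingEnd ℂ) (w y) * (if r ∣ y - x then (phi r : ℂ) else 0) := by
          intro y hy
          rw [← Finset.mul_sum, horth y x (mem_Lc.1 hy).2 hx]
        rw [Finset.sum_congr rfl h4, Finset.sum_eq_single x]
        · rw [if_pos (by simp)]
        · intro y hy hne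
          rw [if_neg, mul_zero]
          intro hd
          exact hne (uniq_rep hr hy hx hd)
        · intro h
          exact absurd hx h
      rw [Finset.sum_congr rfl h3, ← Finset.sum_mul]
      field_simp
    have h5 : (∑ χ ∈ allF (MulChar (AdjoinRoot r) ℂ), ‖(phi r : ℂ)⁻¹ * ∑ x ∈ Lc r, w x *
        (starRingEnd ℂ) (χ (AdjoinRoot.mk r x))‖ ^ 2 : ℝ) =
        (phi r : ℝ)⁻¹ * ∑ x ∈ Lc r, ‖w x‖ ^ 2 := by
      have h6 : ((phi r : ℂ)⁻¹ * ∑ x ∈ Lc r, w x * (starRingEnd ℂ) (w x)) =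
          (((phi r : ℝ)⁻¹ * ∑ x ∈ Lc r, ‖w x‖ ^ 2 : ℝ) : ℂ) := by
        rw [Complex.ofReal_mul, Complex.ofReal_inv, Complex.ofReal_natCast, Complex.ofReal_sum]
        congr 1
        refine Finset.sum_congr rfl fun x _ => ?_
        rw [Complex.mul_conj', Complex.ofReal_pow]
      rw [h6] at h1
      exact_mod_cast h1
    have h7 : ∑ x ∈ Lc r, ‖w x‖ ^ 2 ≤ (phi r : ℝ) := by
      calc ∑ x ∈ Lc r, ‖w x‖ ^ 2 ≤ ∑ _x ∈ Lc r, (1 : ℝ) :=
            Finset.sum_le_sum fun x _ => pow_le_one₀ (norm_nonneg _) (hw x)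
        _ = (phi r : ℝ) := by
            rw [Finset.sum_const, card_Lc, nsmul_eq_mul, mul_one]
    change (∑ χ ∈ allF (MulChar (AdjoinRoot r) ℂ), ‖(phi r : ℂ)⁻¹ * ∑ x ∈ Lc r, w x *
        (starRingEnd ℂ) (χ (AdjoinRoot.mk r x))‖ ^ 2 : ℝ) ≤ 1
    rw [h5]
    calc (phi r : ℝ)⁻¹ * ∑ x ∈ Lc r, ‖w x‖ ^ 2 ≤ (phi r : ℝ)⁻¹ * (phi r : ℝ) :=
          mul_le_mul_of_nonneg_left h7 (inv_nonneg.2 hφR.le)
      _ = 1 := inv_mul_cancel₀ hφR.ne'
  · change (phi r : ℂ) * ((phi r : ℂ)⁻¹ * ∑ x ∈ Lc r, w x *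
      (starRingEnd ℂ) ((1 : MulChar (AdjoinRoot r) ℂ) (AdjoinRoot.mk r x))) = ∑ x ∈ Lc r, w x
    rw [← mul_assoc, mul_inv_cancel₀ hφ, one_mul]
    refine Finset.sum_congr rfl fun x hx => ?_
    have hu : IsUnit (AdjoinRoot.mk r x) := by
      obtain ⟨a, b, hab⟩ := (mem_Lc.1 hx).2
      have h8 : AdjoinRoot.mk r x * AdjoinRoot.mk r a = 1 := by
        rw [← map_mul, ← map_one (AdjoinRoot.mk r), AdjoinRoot.mk_eq_mk]
        exact ⟨-b, by linear_combination hab⟩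
      exact IsUnit.of_mul_eq_one _ h8
    rw [MulChar.one_apply hu, map_one, mul_one]

end Pool.Agent.Helper98.FC
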